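import Mathlib
import Pool.Agent.H29.MuDefs
import Pool.Agent.H29.Mu2

set_option autoImplicit false

namespace Pool.Agent.Results.MP_0eb722_an.Exact

open scoped InnerProductSpace
open Pool.Agent.H29.Mu

theorem result :
    (∀ (n : ℕ) (M : Op n) (θ : ℝ), 1 ≤ n → 0 ≤ θ → θ ≤ Real.pi / 2 →
      (mu θ M = muHat θ M ↔
        (∀ y : Cn n, ‖y‖ = 1 → InSector θ (-⟪y, M y⟫_ℂ) → M y = 0) ∨
        ∃ x : Cn n, ‖x‖ = 1 ∧ Real.cos θ * ‖M x‖ ≤ -(⟪x, M x⟫_ℂ).re ∧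
          ∀ y : Cn n, ‖y‖ = 1 → InSector θ (-⟪y, M y⟫_ℂ) → ‖M y‖ ≤ ‖M x‖)) ∧
    (∀ θ : ℝ, 0 ≤ θ → θ < Real.pi / 2 → ∃ M : Op 2, mu θ M < muHat θ M) ∧
    (∀ (n : ℕ) (M : Op n), 1 ≤ n → mu (Real.pi / 2) M = muHat (Real.pi / 2) M) :=
  ⟨fun _ M _ _ h0 h1 => charac h0 h1 M, fun _ h0 h1 => counter h0 h1,
    fun _ M _ => right_angle M⟩

end Pool.Agent.Results.MP_0eb722_an.Exact
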